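import Pool.Agent.V1115.SR.Primes
import Pool.Agent.V1115.SR.Field
import Pool.Agent.V1115.SR.Grp

/-!
# The degree of the character field of uniformly semi-rational groups is unbounded

The groups are `{(s, d) ∈ S_n × D_8 : sgn s = det d}`.
-/

set_option linter.unusedSectionVars false

open scoped BigOperators Classical
open Pool.Agent.V1115.SR Pool.Agent.Helper884.IC

noncomputable section

namespace Pool.Agent.Results.MP_fc75c6_al.Unbounded

/-- `G` is `m`-semi-rational: for every `x`, every generator of `⟨x⟩` is conjugate to `x` or to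
`x ^ m`. -/
def IsSemiRationalWith (m : ℤ) (G : Type) [Group G] : Prop :=
  ∀ x y : G, Subgroup.zpowers y = Subgroup.zpowers x → IsConj x y ∨ IsConj (x ^ m) y

/-- `G` is uniformly semi-rational: it is `m`-semi-rational for some integer `m`. -/
def UniformlySemiRational (G : Type) [Group G] : Prop := ∃ m : ℤ, IsSemiRationalWith m G

/-- The field generated over `ℚ` by all values of the complex irreducible characters of `G`. -/
def characterField (G : Type) [Group G] : IntermediateField ℚ ℂ :=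
  IntermediateField.adjoin ℚ {z : ℂ | ∃ χ : G → ℂ, IsIrrChar χ ∧ ∃ x : G, χ x = z}

theorem uniformly (n : ℕ) : UniformlySemiRational (GG n) := by
  obtain ⟨m, hm⟩ := semi_key n
  refine ⟨m, ?_⟩
  intro x y hxy
  have h1 : y ∈ Submonoid.powers x := by
    rw [mem_powers_iff_mem_zpowers, ← hxy]
    exact Subgroup.mem_zpowers y
  obtain ⟨j, hj⟩ := h1
  have hj : x ^ j = y := hj
  have h2 : orderOf y = orderOf x := by
    rw [← Nat.card_zpowers, ← Nat.card_zpowers, hxy]
  have h3 : Nat.Coprime j (orderOf x) := by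
    rw [← hj, orderOf_pow] at h2
    have h4 : 0 < orderOf x := orderOf_pos x
    have h5 : Nat.gcd (orderOf x) j ∣ orderOf x := Nat.gcd_dvd_left _ _
    obtain ⟨k, hk⟩ := h5
    have h6 : 0 < Nat.gcd (orderOf x) j := Nat.gcd_pos_of_pos_left _ h4
    have h7 : orderOf x / Nat.gcd (orderOf x) j = k := by
      conv_lhs => lhs; rw [hk]
      exact Nat.mul_div_cancel_left k h6
    rw [h7] at h2
    rw [← h2] at hk
    have h8 : 0 < k := by rw [h2]; exact h4
    have h9 : Nat.gcd (orderOf x) j = 1 := by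
      have h10 : Nat.gcd (orderOf x) j * k = 1 * k := by
        rw [one_mul]
        conv_rhs => rw [hk]
        rw [h2]
      exact Nat.eq_of_mul_eq_mul_right h8 h10
    rw [Nat.gcd_comm] at h9
    exact h9
  rcases hm x j h3 with h4 | h4
  · left
    rwa [hj] at h4
  · right
    rw [hj] at h4
    rwa [zpow_natCast]

lemma exp_dvd {n : ℕ} (x : GG n) : x ^ (4 * n.factorial) = 1 := by
  obtain ⟨⟨s, d⟩, hx⟩ := x
  apply Subtype.ext
  refine Prod.ext ?_ ?_
  · show s ^ (4 * n.factorial) = 1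
    have h : s ^ n.factorial = 1 := by
      have h1 := pow_card_eq_one (x := s)
      rwa [Fintype.card_perm, Fintype.card_fin] at h1
    rw [mul_comm, pow_mul, h, one_pow]
  · show d ^ (4 * n.factorial) = 1
    rw [pow_mul, d8_pow4, one_pow]

theorem data {t q : ℕ} (hq : q ∈ PP t) : ∃ (j : ℕ) (x : GG (2 ^ (t + 1))),
    Nat.Coprime j (4 * (2 ^ (t + 1)).factorial) ∧
    (∀ k, k ∣ 4 * (2 ^ (t + 1)).factorial → Nat.Coprime k q → j ≡ 1 [MOD k]) ∧
    ¬ IsConj x (x ^ j) ∧ (∀ q' ∈ PP t, q' ≠ q → Nat.Coprime (orderOf x) q') := by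
  obtain ⟨⟨h1, h2⟩, hp⟩ := mem_PP.mp hq
  have : Fact q.Prime := ⟨hp⟩
  set n := 2 ^ (t + 1) with hn
  have hn2 : n = 2 * 2 ^ t := by rw [hn, pow_succ, mul_comm]
  have h20 : 0 < 2 ^ t := by positivity
  have hq2 : q ≠ 2 := by
    rintro rfl
    have h3 : 2 ^ t = 1 := by omega
    omega
  have hodd : Odd q := hp.odd_of_ne_two hq2
  have hq3 : 3 ≤ q := by
    rcases hodd with ⟨k, hk⟩
    have := hp.two_le
    omega
  obtain ⟨b, hb⟩ : ∃ b, n = q + b := ⟨n - q, by omega⟩
  have hb0 : 0 < b := by omega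
  have hbq : b < q := by omega
  have hbodd : Odd b := by
    obtain ⟨k, hk⟩ := hodd
    exact ⟨2 ^ t - k - 1, by omega⟩
  have : NeZero b := ⟨hb0.ne'⟩
  -- the order of the group
  obtain ⟨M0, hM0⟩ : q ∣ n.factorial := (Nat.Prime.dvd_factorial hp).mpr h2.le
  have hM0' : ¬ q ∣ M0 := by
    intro h
    have h3 : q ^ 2 ∣ n.factorial := by
      rw [hM0, sq]
      exact Nat.mul_dvd_mul_left q h
    have hlog : Nat.log q n < 2 := by
      rw [Nat.log_lt_iff_lt_pow hp.one_lt (by omega)]
      nlinarith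
    rw [Nat.Prime.pow_dvd_factorial_iff hp hlog] at h3
    have h4 : n / q = 1 := by
      rw [Nat.div_eq_iff (by omega)]
      omega
    simp [h4] at h3
  have hN : 4 * n.factorial = q * (4 * M0) := by rw [hM0]; ring
  have hcop : Nat.Coprime q (4 * M0) := by
    refine Nat.Coprime.mul_right ?_ ((Nat.Prime.coprime_iff_not_dvd hp).mpr hM0')
    have h3 : Nat.Coprime q 2 := hodd.coprime_two_right
    exact Nat.Coprime.pow_right 2 h3
  -- a primitive root
  obtain ⟨u, hu⟩ := IsCyclic.exists_generator (α := (ZMod q)ˣ)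
  obtain ⟨j, hj1, hj2⟩ := Nat.chineseRemainder hcop (u : ZMod q).val 1
  have hju : (j : ZMod q) = u := by
    have h3 := (ZMod.natCast_eq_natCast_iff _ _ _).mpr hj1
    rw [h3, ZMod.natCast_zmod_val]
  have hj4 : j ≡ 1 [MOD 4] := Nat.ModEq.of_dvd (Dvd.intro _ rfl) hj2
  have hbM : b ∣ 4 * M0 := by
    have h3 : b ∣ q * (4 * M0) := by
      rw [← hN]
      exact Dvd.dvd.mul_left (Nat.dvd_factorial hb0 (by omega)) 4
    refine Nat.Coprime.dvd_of_dvd_mul_left ?_ h3
    exact (Nat.Coprime.symm ((Nat.Prime.coprime_iff_not_dvd hp).mpr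
      (fun h => absurd (Nat.le_of_dvd hb0 h) (by omega))))
  have hjb : (j : ZMod b) = 1 := by
    have h3 := (ZMod.natCast_eq_natCast_iff j 1 b).mpr (Nat.ModEq.of_dvd hbM hj2)
    rw [h3, Nat.cast_one]
  obtain ⟨s, hs1, hs2, hs3⟩ := exists_s (q := q) (b := b) hb hodd hbodd hbq
  have hx : ((s, DihedralGroup.r 1) : Equiv.Perm (Fin n) × DihedralGroup 4) ∈ (eps n).ker := by
    rw [MonoidHom.mem_ker, eps_apply, hs2]
    rfl
  refine ⟨j, ⟨(s, DihedralGroup.r 1), hx⟩, ?_, ?_, ?_, ?_⟩
  · rw [hN]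
    refine Nat.Coprime.mul_right ?_ ?_
    · refine Nat.Coprime.symm ((Nat.Prime.coprime_iff_not_dvd hp).mpr ?_)
      intro h
      rw [← ZMod.natCast_eq_zero_iff, hju] at h
      exact u.ne_zero h
    · have h3 := hj2.gcd_eq
      rw [Nat.gcd_one_left] at h3
      exact h3
  · intro k hk hkq
    rw [hN] at hk
    exact Nat.ModEq.of_dvd (hkq.dvd_of_dvd_mul_left hk) hj2
  · intro hc
    obtain ⟨⟨⟨g1, g2⟩, hg⟩, hgc⟩ := isConj_iff.mp hc
    have hgc' := congrArg Subtype.val hgc
    have e1 : g1 * s * g1⁻¹ = s ^ j := congrArg Prod.fst hgc'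
    have e2 : g2 * DihedralGroup.r 1 * g2⁻¹ = (DihedralGroup.r 1) ^ j := congrArg Prod.snd hgc'
    have e3 : (DihedralGroup.r 1 : DihedralGroup 4) ^ j = DihedralGroup.r 1 := by
      have h3 : j ≡ 1 [MOD orderOf (DihedralGroup.r 1 : DihedralGroup 4)] :=
        Nat.ModEq.of_dvd (orderOf_dvd_of_pow_eq_one (d8_pow4 _)) hj4
      have h4 := (pow_eq_pow_iff_modEq (x := (DihedralGroup.r 1 : DihedralGroup 4))).mpr h3
      rw [h4, pow_one]
    rw [e3] at e2
    have e4 : det g2 = 1 := d8_cent_r g2 (mul_inv_eq_iff_eq_mul.mp e2)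
    have e5 : Equiv.Perm.sign g1 = -1 := by
      refine hs3 u hu j hju hjb g1 ?_
      rw [← e1]
      group
    rw [MonoidHom.mem_ker, eps_apply, e4, e5] at hg
    exact absurd hg (by decide)
  · intro q' hq' hne
    obtain ⟨⟨h3, h4⟩, hp'⟩ := mem_PP.mp hq'
    have h5 : orderOf (⟨(s, DihedralGroup.r 1), hx⟩ : GG n) ∣ 4 * (q * b) := by
      apply orderOf_dvd_of_pow_eq_one
      apply Subtype.ext
      refine Prod.ext ?_ ?_
      · show s ^ (4 * (q * b)) = 1
        rw [mul_comm, pow_mul, hs1, one_pow]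
      · show (DihedralGroup.r 1 : DihedralGroup 4) ^ (4 * (q * b)) = 1
        rw [pow_mul, d8_pow4, one_pow]
    refine Nat.Coprime.coprime_dvd_left h5 ?_
    refine Nat.Coprime.symm ((Nat.Prime.coprime_iff_not_dvd hp').mpr ?_)
    intro h6
    rcases (Nat.Prime.dvd_mul hp').mp h6 with h7 | h7
    · have h8 : q' ∣ 2 ^ 2 := h7
      have h9 : q' = 2 := (Nat.prime_dvd_prime_iff_eq hp' Nat.prime_two).mp
        (hp'.dvd_of_dvd_pow h8)
      subst h9
      have h10 : 2 ^ t = 1 := by omega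
      omega
    · rcases (Nat.Prime.dvd_mul hp').mp h7 with h8 | h8
      · exact hne ((Nat.prime_dvd_prime_iff_eq hp' hp).mp h8)
      · exact absurd (Nat.le_of_dvd hb0 h8) (by omega)

/-- For every `c` there is a finite uniformly semi-rational group `G` whose character field has
degree larger than `c` over `ℚ`. -/
theorem result (c : ℕ) : ∃ (G : Type) (_ : Group G) (_ : Finite G),
    UniformlySemiRational G ∧ c < Module.finrank ℚ (characterField G) := by
  obtain ⟨t, ht⟩ := exists_many c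
  refine ⟨GG (2 ^ (t + 1)), inferInstance, inferInstance, uniformly _, ?_⟩
  set N := 4 * (2 ^ (t + 1)).factorial with hN
  have hN0 : 0 < N := by positivity
  choose j x hj1 hj2 hj3 hj4 using fun q : PP t => data q.2
  let J : Finset (PP t) → ℕ := fun A => ∏ q ∈ A, j q
  have hord : ∀ q, orderOf (x q) ∣ N := fun q => orderOf_dvd_of_pow_eq_one (exp_dvd (x q))
  have hprod : ∀ (q : PP t) (A : Finset (PP t)), q ∉ A → J A ≡ 1 [MOD orderOf (x q)] := by
    intro q A hqA
    refine Finset.prod_induction _ (fun a => a ≡ 1 [MOD orderOf (x q)])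
      (fun a b ha hb => ha.mul hb) rfl ?_
    intro q' hq'
    have hne : q' ≠ q := by
      rintro rfl
      exact hqA hq'
    exact hj2 q' _ (hord q) (hj4 q q'.1 q'.2 (fun h => hne (Subtype.ext h)))
  have hfix : ∀ (q : PP t) (A : Finset (PP t)), q ∉ A → x q ^ J A = x q := by
    intro q A hqA
    rw [(pow_eq_pow_iff_modEq (x := x q)).mpr (hprod q A hqA), pow_one]
  have hmove : ∀ (q : PP t) (A : Finset (PP t)), q ∈ A → x q ^ J A = x q ^ j q := by
    intro q A hqA
    have h1 : J A = j q * J (A.erase q) := (Finset.mul_prod_erase A j hqA).symm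
    rw [h1, mul_comm, pow_mul, hfix q _ (Finset.notMem_erase q A)]
  have hsep : ∀ (A A' : Finset (PP t)) (q : PP t), q ∈ A → q ∉ A' →
      ¬ IsConj (x q ^ J A') (x q ^ J A) := by
    intro A A' q hq hq' hc
    rw [hfix q A' hq', hmove q A hq] at hc
    exact hj3 q hc
  have hN' : ∀ z : GG (2 ^ (t + 1)), z ^ N = 1 := exp_dvd
  have : Fintype (GG (2 ^ (t + 1))) := Fintype.ofFinite _
  have hlow := lower hN0 hN' J (fun A => Nat.Coprime.prod_left fun q _ => hj1 q) (by
    intro A A' hne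
    have h1 : ∃ q, ¬ (q ∈ A ↔ q ∈ A') := by
      by_contra h
      push Not at h
      exact hne (Finset.ext h)
    obtain ⟨q, hq⟩ := h1
    refine ⟨x q, fun hc => ?_⟩
    by_cases hA : q ∈ A
    · have hA' : q ∉ A' := fun h => hq ⟨fun _ => h, fun _ => hA⟩
      exact hsep A A' q hA hA' hc.symm
    · have hA' : q ∈ A' := by
        by_contra h
        exact hq ⟨fun h' => absurd h' hA, fun h' => absurd h' h⟩
      exact hsep A' A q hA' hA hc)
  refine lt_of_lt_of_le ?_ hlow
  rw [Nat.card_eq_fintype_card, Fintype.card_finset, Fintype.card_coe]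
  exact lt_of_lt_of_le Nat.lt_two_pow_self (Nat.pow_le_pow_right (by norm_num) ht)

end Pool.Agent.Results.MP_fc75c6_al.Unbounded
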